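import Mathlib

/-!
# Rainbow matchings in colourings of `K_{n-1,n}` that embed into abelian groups

Exchange argument in the style of Marshall Hall: a rainbow matching that misses one vertex `i` of
the smaller side and two vertices `p`, `q` of the larger side can always be enlarged. Put
`S = a i + b p + b q`. Move `i` to `p`; every row `j` reached from `q` by the rule
(colour of `l` equals `S - b q`, or colour of `l` equals `S - b (f j)` with `j` reached) is moved
from its column `f j` to the column `y` with `b y = S - (a j + b (f j))`.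
-/

namespace Pool.Agent.Results.MP_b3207d_co.AbelianColourings

open Function

/-- Rows reached from the free column `q`. -/
inductive Reach {R C G : Type*} [AddCommGroup G] (s : Finset R) (a : R → G) (b : C → G)
    (f : R → C) (S : G) (q : C) : R → Prop
  | base (l : R) (hl : l ∈ s) (h : a l + b (f l) = S - b q) : Reach s a b f S q l
  | step (j l : R) (hj : Reach s a b f S q j) (hl : l ∈ s)
      (h : a l + b (f l) = S - b (f j)) : Reach s a b f S q l

/-- The exchange step. -/
theorem extend {R C G : Type*} [AddCommGroup G] (s : Finset R) (t : Finset C)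
    (a : R → G) (b : C → G) (hb : Injective b) (f : R → C)
    (i : R) (p q : C)
    (hft : ∀ j ∈ s, f j ∈ t)
    (hinj : ∀ j ∈ s, ∀ l ∈ s, f j = f l → j = l)
    (hsum : ∀ j ∈ s, ∀ l ∈ s, a j + b (f j) = a l + b (f l) → j = l)
    (hp : p ∈ t) (hq : q ∈ t) (hpq : p ≠ q)
    (hpf : ∀ j ∈ s, f j ≠ p) (hqf : ∀ j ∈ s, f j ≠ q) (hi : i ∉ s) :
    ∃ g : R → C, (∀ j, (j = i ∨ j ∈ s) → g j ∈ t) ∧
      (∀ j l, (j = i ∨ j ∈ s) → (l = i ∨ l ∈ s) → g j = g l → j = l) ∧
      (∀ j l, (j = i ∨ j ∈ s) → (l = i ∨ l ∈ s) → a j + b (g j) = a l + b (g l) → j = l) := by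
  classical
  set S : G := a i + b p + b q with hS
  have key : ∀ j, Reach s a b f S q j → j ∈ s ∧
      ∃ y, b y = S - (a j + b (f j)) ∧ (y = q ∨ ∃ l, Reach s a b f S q l ∧ l ∈ s ∧ y = f l) := by
    intro j hj
    induction hj with
    | base l hl h =>
      refine ⟨hl, q, ?_, Or.inl rfl⟩
      rw [h]; abel
    | step j l hj hl h ih =>
      refine ⟨hl, f j, ?_, Or.inr ⟨j, hj, ih.1, rfl⟩⟩
      rw [h]; abel
  choose hs h hh1 hh2 using key
  let g : R → C := fun j => if j = i then p else
    if hj : Reach s a b f S q j then h j hj else f j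
  have gi : g i = p := by simp [g]
  have gR : ∀ j (hj : Reach s a b f S q j), g j = h j hj := by
    intro j hj
    have hji : j ≠ i := fun e => hi (e ▸ hs j hj)
    simp [g, hji, hj]
  have gN : ∀ j, j ∈ s → ¬ Reach s a b f S q j → g j = f j := by
    intro j hj hn
    have hji : j ≠ i := fun e => hi (e ▸ hj)
    simp [g, hji, hn]
  have sumi : a i + b (g i) = S - b q := by rw [gi, hS]; abel
  have sumR : ∀ j (hj : Reach s a b f S q j), a j + b (g j) = S - b (f j) := by
    intro j hj
    rw [gR j hj, hh1 j hj]; abel
  have sumN : ∀ j, j ∈ s → ¬ Reach s a b f S q j → a j + b (g j) = a j + b (f j) := by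
    intro j hj hn
    rw [gN j hj hn]
  -- columns of reached rows
  have colR : ∀ j (hj : Reach s a b f S q j),
      g j = q ∨ ∃ l, Reach s a b f S q l ∧ l ∈ s ∧ g j = f l := by
    intro j hj
    rw [gR j hj]
    exact hh2 j hj
  refine ⟨g, ?_, ?_, ?_⟩
  · rintro j (rfl | hj)
    · rw [gi]; exact hp
    · by_cases hr : Reach s a b f S q j
      · rcases colR j hr with e | ⟨l, _, hl, e⟩
        · rw [e]; exact hq
        · rw [e]; exact hft l hl
      · rw [gN j hj hr]; exact hft j hj
  · -- injectivity of g
    have aux1 : ∀ l, l ∈ s → g l ≠ g i := by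
      intro l hl
      rw [gi]
      by_cases hr : Reach s a b f S q l
      · rcases colR l hr with e | ⟨m, _, hm, e⟩
        · rw [e]; exact fun e' => hpq e'.symm
        · rw [e]; exact hpf m hm
      · rw [gN l hl hr]; exact hpf l hl
    have aux2 : ∀ j l, Reach s a b f S q j → l ∈ s → ¬ Reach s a b f S q l → g j ≠ g l := by
      intro j l hj hl hn
      rw [gN l hl hn]
      rcases colR j hj with e | ⟨m, hm', hm, e⟩
      · rw [e]; exact fun e' => hqf l hl e'.symm
      · rw [e]
        intro e'
        exact hn (hinj m hm l hl e' ▸ hm')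
    have aux3 : ∀ j l, Reach s a b f S q j → Reach s a b f S q l → g j = g l → j = l := by
      intro j l hj hl e
      apply hsum j (hs j hj) l (hs l hl)
      have e1 : b (g j) = b (g l) := by rw [e]
      rw [gR j hj, gR l hl, hh1 j hj, hh1 l hl] at e1
      exact sub_right_inj.mp e1
    rintro j l (rfl | hj) (rfl | hl) e
    · rfl
    · exact absurd e.symm (aux1 l hl)
    · exact absurd e (aux1 j hj)
    · by_cases hrj : Reach s a b f S q j
      · by_cases hrl : Reach s a b f S q l
        · exact aux3 j l hrj hrl e
        · exact absurd e (aux2 j l hrj hl hrl)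
      · by_cases hrl : Reach s a b f S q l
        · exact absurd e.symm (aux2 l j hrl hj hrj)
        · rw [gN j hj hrj, gN l hl hrl] at e
          exact hinj j hj l hl e
  · -- distinct sums
    have aux1 : ∀ l, l ∈ s → a l + b (g l) ≠ a i + b (g i) := by
      intro l hl
      rw [sumi]
      by_cases hr : Reach s a b f S q l
      · rw [sumR l hr]
        intro e
        exact hqf l hl (hb (sub_right_inj.mp e))
      · rw [sumN l hl hr]
        intro e
        exact hr (Reach.base l hl e)
    have aux2 : ∀ j l, Reach s a b f S q j → l ∈ s → ¬ Reach s a b f S q l →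
        a j + b (g j) ≠ a l + b (g l) := by
      intro j l hj hl hn
      rw [sumR j hj, sumN l hl hn]
      intro e
      exact hn (Reach.step j l hj hl e.symm)
    rintro j l (rfl | hj) (rfl | hl) e
    · rfl
    · exact absurd e.symm (aux1 l hl)
    · exact absurd e (aux1 j hj)
    · by_cases hrj : Reach s a b f S q j
      · by_cases hrl : Reach s a b f S q l
        · rw [sumR j hrj, sumR l hrl] at e
          exact hinj j hj l hl (hb (sub_right_inj.mp e))
        · exact absurd e (aux2 j l hrj hl hrl)
      · by_cases hrl : Reach s a b f S q l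
        · exact absurd e.symm (aux2 l j hrl hj hrj)
        · rw [sumN j hj hrj, sumN l hl hrl] at e
          exact hsum j hj l hl e

/-- Induction on the set of rows. -/
theorem main {R C G : Type*} [AddCommGroup G] [DecidableEq R] [DecidableEq C] [Nonempty C]
    (a : R → G) (b : C → G) (hb : Injective b) (s : Finset R) :
    ∀ t : Finset C, s.card < t.card →
      ∃ f : R → C, (∀ j ∈ s, f j ∈ t) ∧ (∀ j ∈ s, ∀ l ∈ s, f j = f l → j = l) ∧
        (∀ j ∈ s, ∀ l ∈ s, a j + b (f j) = a l + b (f l) → j = l) := by
  induction s using Finset.induction_on with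
  | empty =>
    intro t _
    exact ⟨fun _ => Classical.arbitrary C, by simp, by simp, by simp⟩
  | insert i s hi ih =>
    intro t ht
    rw [Finset.card_insert_of_notMem hi] at ht
    obtain ⟨f, hft, hinj, hsum⟩ := ih t (by omega)
    -- two free columns
    have himg : (s.image f) ⊆ t := by
      intro y hy
      obtain ⟨j, hj, rfl⟩ := Finset.mem_image.mp hy
      exact hft j hj
    have hcard : (s.image f).card ≤ s.card := Finset.card_image_le
    have h2 : 1 < (t \ s.image f).card := by
      rw [Finset.card_sdiff_of_subset himg]; omega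
    obtain ⟨p, hp, q, hq, hpq⟩ := Finset.one_lt_card.mp h2
    rw [Finset.mem_sdiff] at hp hq
    have hpf : ∀ j ∈ s, f j ≠ p := fun j hj e => hp.2 (Finset.mem_image.mpr ⟨j, hj, e⟩)
    have hqf : ∀ j ∈ s, f j ≠ q := fun j hj e => hq.2 (Finset.mem_image.mpr ⟨j, hj, e⟩)
    obtain ⟨g, g1, g2, g3⟩ := extend s t a b hb f i p q hft hinj hsum hp.1 hq.1 hpq hpf hqf hi
    refine ⟨g, ?_, ?_, ?_⟩
    · intro j hj
      exact g1 j (Finset.mem_insert.mp hj)
    · intro j hj l hl e
      exact g2 j l (Finset.mem_insert.mp hj) (Finset.mem_insert.mp hl) e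
    · intro j hj l hl e
      exact g3 j l (Finset.mem_insert.mp hj) (Finset.mem_insert.mp hl) e

/-- Let `c` be a colouring of the edges of `K_{n-1,n}` such that, for some abelian group `G`, some
`x : rows → G` and some injective `y : columns → G`, edges `(i,j)` and `(i',j')` of the same colour
have `x i + y j = x i' + y j'`. Then there is a rainbow matching with `n - 1` edges. -/
theorem result :
    ∀ (n : ℕ) (K : Type*) (c : Fin (n - 1) → Fin n → K) (G : Type*) [AddCommGroup G]
      (x : Fin (n - 1) → G) (y : Fin n → G), Function.Injective y →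
      (∀ i j i' j', c i j = c i' j' → x i + y j = x i' + y j') →
      ∃ f : Fin (n - 1) → Fin n,
        Function.Injective f ∧ Function.Injective (fun i => c i (f i)) := by
  intro n K c G _ x y hy hc
  rcases Nat.eq_zero_or_pos n with rfl | hn
  · exact ⟨fun i => absurd i.2 (by simp), fun i => absurd i.2 (by simp),
      fun i => absurd i.2 (by simp)⟩
  · have : Nonempty (Fin n) := ⟨⟨0, hn⟩⟩
    obtain ⟨f, -, h2, h3⟩ := main x y hy (Finset.univ : Finset (Fin (n - 1)))
      (Finset.univ : Finset (Fin n)) (by simp; omega)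
    refine ⟨f, fun i j e => h2 i (Finset.mem_univ _) j (Finset.mem_univ _) e, ?_⟩
    intro i j e
    exact h3 i (Finset.mem_univ _) j (Finset.mem_univ _) (hc _ _ _ _ e)

end Pool.Agent.Results.MP_b3207d_co.AbelianColourings
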