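import Pool.Agent.Lib.MP_b3207d_co.HM.SWP
import Pool.Agent.Lib.MP_b3207d_co.HM.REC
import Pool.Agent.Lib.MP_b3207d_co.HM.AUG
import Pool.Agent.Lib.MP_b3207d_co.HM.ATH
import Pool.Agent.Lib.MP_b3207d_co.HM.UPP
import Pool.Agent.Lib.MP_b3207d_co.HM.RLM
import Pool.Agent.Lib.MP_b3207d_co.HM.CYC
import Pool.Agent.Lib.MP_b3207d_co.HM.BAD
import Pool.Agent.Lib.MP_b3207d_co.HM.CNT
import Pool.Agent.Lib.MP_b3207d_co.HM.LOW
import Pool.Agent.Lib.MP_b3207d_co.HM.MON
import Pool.Agent.Lib.MP_b3207d_co.HM.FST
import Pool.Agent.Lib.MP_b3207d_co.HM.ITR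
import Pool.Agent.Lib.MP_b3207d_co.HM.WBD
import Pool.Agent.Lib.MP_b3207d_co.HM.STP
import Pool.Agent.Lib.MP_b3207d_co.HM.FIN

/-!
# MP_b3207d_co: rainbow matchings when no colour is frequent

An explicit bound valid for all sizes: a proper edge colouring of a complete bipartite graph with
parts of sizes `a ≤ b` in which no colour occurs more than `a / 2 - O(√a)` times has a rainbow
matching which covers the smaller part. The proof is elementary, see
`Pool/Agent/Lib/MP_b3207d_co/HM/Spec.lean`.
-/

set_option autoImplicit false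

namespace Pool.Agent.Results.MP_b3207d_co.HalfMultiplicity

open Pool.Agent.Lib.MPb3207d.HM

/-- Let `R`, `C` be finite, `a = |R| ≤ |C|`, and `c` a proper edge colouring of the complete bipartite
graph between `R` and `C`. If every set `A` of colours with `a/4 ≤ |A| ≤ a` covers at most `|A| μ`
edges (for example if no colour is used more than `μ` times), and
`2 μ + a / 2^(2^S) + 6 √a + 170 * 3^S ≤ a` for some `S ≥ 1`, then there is a rainbow matching with
`a` edges. -/
theorem result (R C α : Type) [Fintype R] [Fintype C] (c : R → C → α)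
    (hRC : Fintype.card R ≤ Fintype.card C)
    (hrow : ∀ x y y', c x y = c x y' → y = y')
    (hclm : ∀ x x' y, c x y = c x' y → x = x')
    (μ S : ℕ) (hS : 1 ≤ S)
    (hμ : ∀ A : Finset α, Fintype.card R ≤ 4 * A.card → A.card ≤ Fintype.card R →
      {e : R × C | c e.1 e.2 ∈ A}.ncard ≤ A.card * μ)
    (h : 2 * (μ : ℝ) + (Fintype.card R : ℝ) / 2 ^ (2 ^ S) + 6 * Real.sqrt (Fintype.card R) +
      170 * 3 ^ S ≤ Fintype.card R) :
    ∃ f : R → C, Function.Injective f ∧ Function.Injective fun x => c x (f x) := by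
  have hREC : SpecREC := specREC specSWP
  have hAUG : SpecAUG := specAUG specSWP hREC
  have hATH : SpecATH := specATH hAUG
  have hBAD : SpecBAD := specBAD specCYC
  exact specFIN (specUPP hATH) specRLM (specLOW hBAD specCNT) specMON (specFST hATH specMON)
    specITR specWBD specSTP R C α c hRC hrow hclm μ S hS hμ h

end Pool.Agent.Results.MP_b3207d_co.HalfMultiplicity
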